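import Mathlib

/-!
# MP_2b3591_co: `m(k, k - 1) > c ^ k`

There is an absolute constant `c > 1` such that for every `k ≥ 3` there is an intersecting
`k`-uniform family with covering number `k`, every `(k-1)`-set of whose ground set is disjoint from
more than `c ^ k` members.
-/

set_option autoImplicit false

open Finset

namespace Pool.Agent.Results.MP_2b3591_co.ExponentialGrowth

/-- `F` is an intersecting family of `k`-sets. -/
def IsIntersecting {V : Type} [DecidableEq V] (k : ℕ) (F : Finset (Finset V)) : Prop :=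
  (∀ A ∈ F, #A = k) ∧ ∀ A ∈ F, ∀ B ∈ F, (A ∩ B).Nonempty

/-- `T` meets all members of `F`. -/
def IsCover {V : Type} [DecidableEq V] (F : Finset (Finset V)) (T : Finset V) : Prop :=
  ∀ A ∈ F, (T ∩ A).Nonempty

/-- The covering number of `F` is `t`: some cover has `t` elements, and no cover has fewer. -/
def CoveringNumberEq {V : Type} [DecidableEq V] (F : Finset (Finset V)) (t : ℕ) : Prop :=
  (∃ T, IsCover F T ∧ #T = t) ∧ ∀ T, IsCover F T → t ≤ #T

/-- the members of `F` that are disjoint from `B` -/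
def avoid {V : Type} [DecidableEq V] (F : Finset (Finset V)) (B : Finset V) : Finset (Finset V) :=
  F.filter (fun A => Disjoint A B)

/-- an intersecting family of `k`-sets such that every set with fewer than `k` elements is avoided
by at least `M` members -/
def Good (k M : ℕ) : Prop :=
  ∃ (V : Type) (_ : Fintype V) (_ : DecidableEq V) (F : Finset (Finset V)),
    IsIntersecting k F ∧ ∀ B : Finset V, #B < k → M ≤ #(avoid F B)

/-! ### Blocks carrying Fano planes -/

def line (l : Fin 7) : Finset (Fin 7) := {l, l + 1, l + 3}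

lemma line_card : ∀ l, #(line l) = 3 := by decide

lemma line_inter : ∀ l l', (line l ∩ line l').Nonempty := by decide

lemma line_inj : ∀ l l', line l = line l' → l = l' := by decide

set_option maxRecDepth 100000 in
lemma line_avoid : ∀ S : Finset (Fin 7), #S ≤ 2 →
    2 ≤ #((univ : Finset (Fin 7)).filter (fun l => Disjoint (line l) S)) := by decide

def L : Option (Fin 7) → Finset (Fin 7)
  | none => ∅
  | some l => line l

lemma L_inj (u v : Option (Fin 7)) (h : L u = L v) : u = v := by
  rcases u with _ | u <;> rcases v with _ | v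
  · rfl
  · exfalso
    have h1 : #(line v) = 0 := by
      rw [show line v = ∅ from h.symm]
      rfl
    rw [line_card] at h1
    omega
  · exfalso
    have h1 : #(line u) = 0 := by
      rw [show line u = ∅ from h]
      rfl
    rw [line_card] at h1
    omega
  · rw [line_inj u v h]

def memb {N : ℕ} (f : Fin N → Option (Fin 7)) : Finset ((_ : Fin N) × Fin 7) :=
  univ.sigma (fun i => L (f i))

lemma mem_memb {N : ℕ} (f : Fin N → Option (Fin 7)) (i : Fin N) (x : Fin 7) :
    (⟨i, x⟩ : (_ : Fin N) × Fin 7) ∈ memb f ↔ x ∈ L (f i) := by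
  simp [memb]

lemma memb_inj {N : ℕ} : Function.Injective (memb (N := N)) := by
  intro f g h
  funext i
  apply L_inj
  ext x
  rw [← mem_memb, ← mem_memb, h]

lemma memb_card {N : ℕ} (f : Fin N → Option (Fin 7)) :
    #(memb f) = 3 * #(univ.filter (fun i => f i ≠ none)) := by
  unfold memb
  rw [card_sigma]
  have h1 : ∀ i ∈ (univ : Finset (Fin N)), #(L (f i)) = if f i ≠ none then 3 else 0 := by
    intro i _
    rcases h : f i with _ | l
    · rfl
    · rw [if_pos (by simp)]
      exact line_card l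
  rw [sum_congr rfl h1, ← sum_filter, sum_const, smul_eq_mul, mul_comm]

lemma good_fano (a : ℕ) (ha : 1 ≤ a) : Good (3 * a) (2 ^ a) := by
  classical
  let P : Finset (Fin (2 * a - 1) → Option (Fin 7)) :=
    univ.filter (fun f => #(univ.filter (fun i => f i ≠ none)) = a)
  refine ⟨(_ : Fin (2 * a - 1)) × Fin 7, inferInstance, inferInstance, P.image memb, ⟨?_, ?_⟩, ?_⟩
  · intro A hA
    obtain ⟨f, hf, rfl⟩ := mem_image.1 hA
    rw [memb_card, (mem_filter.1 hf).2]
  · intro A hA B hB
    obtain ⟨f, hf, rfl⟩ := mem_image.1 hA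
    obtain ⟨g, hg, rfl⟩ := mem_image.1 hB
    have hf' := (mem_filter.1 hf).2
    have hg' := (mem_filter.1 hg).2
    have h1 := card_union_add_card_inter (univ.filter (fun i => f i ≠ none))
      (univ.filter (fun i => g i ≠ none))
    have h2 : #(univ.filter (fun i => f i ≠ none) ∪ univ.filter (fun i => g i ≠ none)) ≤
        2 * a - 1 := by
      have := card_le_univ (univ.filter (fun i => f i ≠ none) ∪ univ.filter (fun i => g i ≠ none))
      rwa [Fintype.card_fin] at this
    have h3 : 0 < #(univ.filter (fun i => f i ≠ none) ∩ univ.filter (fun i => g i ≠ none)) := by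
      omega
    obtain ⟨i, hi⟩ := card_pos.1 h3
    rw [mem_inter, mem_filter, mem_filter] at hi
    obtain ⟨l, hl⟩ := Option.ne_none_iff_exists'.1 hi.1.2
    obtain ⟨l', hl'⟩ := Option.ne_none_iff_exists'.1 hi.2.2
    obtain ⟨x, hx⟩ := line_inter l l'
    rw [mem_inter] at hx
    refine ⟨⟨i, x⟩, mem_inter.2 ⟨?_, ?_⟩⟩
    · rw [mem_memb, hl]
      exact hx.1
    · rw [mem_memb, hl']
      exact hx.2
  · intro B hB
    let b : Fin (2 * a - 1) → Finset (Fin 7) := fun i =>
      univ.filter (fun x => (⟨i, x⟩ : (_ : Fin (2 * a - 1)) × Fin 7) ∈ B)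
    have hbB : ∑ i, #(b i) = #B := by
      rw [← card_sigma]
      congr 1
      ext ⟨i, x⟩
      simp [b]
    -- the blocks with at most two points of `B`
    let J : Finset (Fin (2 * a - 1)) := univ.filter (fun i => 3 ≤ #(b i))
    have hJ : 3 * #J ≤ #B := by
      rw [← hbB, mul_comm, ← smul_eq_mul, ← sum_const]
      calc ∑ _i ∈ J, 3 ≤ ∑ i ∈ J, #(b i) := sum_le_sum (fun i hi => (mem_filter.1 hi).2)
        _ ≤ ∑ i, #(b i) := sum_le_sum_of_subset (subset_univ _)
    have hJc : a ≤ #(Jᶜ) := by
      rw [card_compl, Fintype.card_fin]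
      omega
    obtain ⟨I, hI1, hI2⟩ := exists_subset_card_eq hJc
    let Q : Fin (2 * a - 1) → Finset (Option (Fin 7)) := fun i =>
      if i ∈ I then ((univ : Finset (Fin 7)).filter (fun l => Disjoint (line l) (b i))).image some
      else {none}
    have hQ : ∀ i ∈ I, 2 ≤ #(Q i) := by
      intro i hi
      have h1 : #(b i) ≤ 2 := by
        by_contra h
        exact (mem_compl.1 (hI1 hi)) (mem_filter.2 ⟨mem_univ _, by omega⟩)
      simp only [Q, if_pos hi]
      rw [card_image_of_injective _ (Option.some_injective _)]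
      exact line_avoid _ h1
    have hcard : 2 ^ a ≤ #(Fintype.piFinset Q) := by
      have h2 : 2 ^ a = 2 ^ #I := by rw [hI2]
      rw [Fintype.card_piFinset, ← prod_mul_prod_compl I, h2]
      have h1 : ∏ i ∈ Iᶜ, #(Q i) = 1 := by
        apply prod_eq_one
        intro i hi
        simp only [Q, if_neg (mem_compl.1 hi)]
        exact card_singleton _
      rw [h1, mul_one]
      exact pow_card_le_prod I (fun i => #(Q i)) 2 hQ
    have hsub : (Fintype.piFinset Q).image memb ⊆ avoid (P.image memb) B := by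
      intro A hA
      obtain ⟨f, hf, rfl⟩ := mem_image.1 hA
      rw [Fintype.mem_piFinset] at hf
      have hfI : ∀ i, f i ≠ none ↔ i ∈ I := by
        intro i
        have h1 := hf i
        by_cases hi : i ∈ I
        · simp only [Q, if_pos hi] at h1
          obtain ⟨l, -, hl⟩ := mem_image.1 h1
          simp [← hl, hi]
        · simp only [Q, if_neg hi, mem_singleton] at h1
          simp [h1, hi]
      refine mem_filter.2 ⟨mem_image_of_mem _ (mem_filter.2 ⟨mem_univ _, ?_⟩), ?_⟩
      · have : univ.filter (fun i => f i ≠ none) = I := by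
          ext i
          rw [mem_filter, hfI i]
          simp
        rw [this, hI2]
      · rw [disjoint_left]
        rintro ⟨i, x⟩ hx hxB
        rw [mem_memb] at hx
        have h1 := hf i
        by_cases hi : i ∈ I
        · simp only [Q, if_pos hi] at h1
          obtain ⟨l, hl1, hl2⟩ := mem_image.1 h1
          rw [← hl2] at hx
          have h2 : Disjoint (line l) (b i) := (mem_filter.1 hl1).2
          exact disjoint_left.1 h2 hx (mem_filter.2 ⟨mem_univ _, hxB⟩)
        · simp only [Q, if_neg hi, mem_singleton] at h1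
          rw [h1] at hx
          exact absurd hx (notMem_empty _)
    calc 2 ^ a ≤ #(Fintype.piFinset Q) := hcard
      _ = #((Fintype.piFinset Q).image memb) := (card_image_of_injective _ memb_inj).symm
      _ ≤ _ := card_le_card hsub

/-! ### The projective plane of order 3 -/

def line13 (l : Fin 13) : Finset (Fin 13) := {l, l + 1, l + 3, l + 9}

def through (x : Fin 13) : Finset (Fin 13) := univ.filter (fun l => x ∈ line13 l)

lemma line13_card : ∀ l, #(line13 l) = 4 := by decide

lemma line13_inter : ∀ l l', (line13 l ∩ line13 l').Nonempty := by decide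

lemma line13_inj : ∀ l l', line13 l = line13 l' → l = l' := by decide

lemma through_card : ∀ x, #(through x) = 4 := by decide

lemma through_inter : ∀ x y, (through x ∩ through y).Nonempty := by decide

lemma good_four : Good 4 2 := by
  classical
  refine ⟨Fin 13, inferInstance, inferInstance, univ.image line13, ⟨?_, ?_⟩, ?_⟩
  · intro A hA
    obtain ⟨l, -, rfl⟩ := mem_image.1 hA
    exact line13_card l
  · intro A hA B hB
    obtain ⟨l, -, rfl⟩ := mem_image.1 hA
    obtain ⟨l', -, rfl⟩ := mem_image.1 hB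
    exact line13_inter l l'
  · intro B hB
    obtain ⟨C, hBC, hC⟩ := exists_superset_card_eq (s := B) (n := 3) (by omega)
      (by rw [Fintype.card_fin]; omega)
    obtain ⟨x, y, z, -, -, -, rfl⟩ := card_eq_three.1 hC
    have h1 : #(through x ∪ through y) ≤ 7 := by
      have h2 := card_union_add_card_inter (through x) (through y)
      have h3 := card_pos.2 (through_inter x y)
      rw [through_card, through_card] at h2
      omega
    have h2 : #(through x ∪ through y ∪ through z) ≤ 10 := by
      have h3 := card_union_add_card_inter (through x ∪ through y) (through z)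
      have h4 : 0 < #((through x ∪ through y) ∩ through z) := by
        obtain ⟨w, hw⟩ := through_inter x z
        rw [mem_inter] at hw
        exact card_pos.2 ⟨w, mem_inter.2 ⟨mem_union_left _ hw.1, hw.2⟩⟩
      rw [through_card] at h3
      omega
    have h3 : 2 ≤ #((through x ∪ through y ∪ through z)ᶜ) := by
      rw [card_compl, Fintype.card_fin]
      omega
    have h4 : ((through x ∪ through y ∪ through z)ᶜ).image line13 ⊆
        avoid (univ.image line13) B := by
      intro A hA
      obtain ⟨l, hl, rfl⟩ := mem_image.1 hA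
      refine mem_filter.2 ⟨mem_image_of_mem _ (mem_univ _), ?_⟩
      rw [disjoint_left]
      intro w hw hwB
      have h5 := hBC hwB
      rw [mem_compl, mem_union, mem_union] at hl
      apply hl
      rw [mem_insert, mem_insert, mem_singleton] at h5
      rcases h5 with rfl | rfl | rfl
      · exact Or.inl (Or.inl (mem_filter.2 ⟨mem_univ _, hw⟩))
      · exact Or.inl (Or.inr (mem_filter.2 ⟨mem_univ _, hw⟩))
      · exact Or.inr (mem_filter.2 ⟨mem_univ _, hw⟩)
    refine h3.trans (le_trans ?_ (card_le_card h4))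
    rw [card_image_of_injective _ (fun l l' h => line13_inj l l' h)]

/-! ### From `k` to `k + 2` -/

/-- the `k`-covers of the graph consisting of a triangle and `k` disjoint edges -/
def cov {k : ℕ} (t : Fin 3) (φ : Fin k → Bool) : Finset (Fin 3 ⊕ (Fin k × Bool)) :=
  (univ.erase t).disjSum (univ.image (fun j => (j, φ j)))

/-- the edges of this graph -/
def edge {k : ℕ} : Fin 3 ⊕ Fin k → Finset (Fin 3 ⊕ (Fin k × Bool))
  | .inl t => (univ.erase t).disjSum ∅
  | .inr j => (∅ : Finset (Fin 3)).disjSum {(j, false), (j, true)}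

lemma cov_card {k : ℕ} (t : Fin 3) (φ : Fin k → Bool) : #(cov t φ) = k + 2 := by
  unfold cov
  rw [card_disjSum, card_erase_of_mem (mem_univ _), card_image_of_injective, card_univ, card_univ,
    Fintype.card_fin, Fintype.card_fin]
  · omega
  · intro j j' h
    exact congrArg Prod.fst h

lemma edge_card {k : ℕ} (e : Fin 3 ⊕ Fin k) : #(edge e) = 2 := by
  rcases e with t | j
  · simp [edge]
  · simp [edge]

lemma cov_inj {k : ℕ} (t t' : Fin 3) (φ φ' : Fin k → Bool) (h : cov t φ = cov t' φ') :
    t = t' ∧ φ = φ' := by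
  constructor
  · by_contra hne
    have h1 : (Sum.inl t : Fin 3 ⊕ (Fin k × Bool)) ∈ cov t' φ' := by
      simp [cov, hne]
    rw [← h] at h1
    simp [cov] at h1
  · funext j
    have h1 : (Sum.inr (j, φ j) : Fin 3 ⊕ (Fin k × Bool)) ∈ cov t φ := by
      simp [cov]
    rw [h] at h1
    obtain ⟨i, -, hi⟩ := mem_image.1 (inr_mem_disjSum.1 h1)
    rw [Prod.mk.injEq] at hi
    rw [← hi.2, hi.1]

lemma fin3_inter : ∀ t t' : Fin 3, ((univ.erase t) ∩ (univ.erase t') : Finset (Fin 3)).Nonempty := by
  decide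

lemma cov_cov {k : ℕ} (t t' : Fin 3) (φ φ' : Fin k → Bool) : (cov t φ ∩ cov t' φ').Nonempty := by
  obtain ⟨x, hx⟩ := fin3_inter t t'
  rw [mem_inter] at hx
  exact ⟨Sum.inl x, mem_inter.2 ⟨inl_mem_disjSum.2 hx.1, inl_mem_disjSum.2 hx.2⟩⟩

lemma cov_edge {k : ℕ} (t : Fin 3) (φ : Fin k → Bool) (e : Fin 3 ⊕ Fin k) :
    (cov t φ ∩ edge e).Nonempty := by
  rcases e with t' | j
  · obtain ⟨x, hx⟩ := fin3_inter t t'
    rw [mem_inter] at hx
    exact ⟨Sum.inl x, mem_inter.2 ⟨inl_mem_disjSum.2 hx.1, inl_mem_disjSum.2 hx.2⟩⟩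
  · refine ⟨Sum.inr (j, φ j), mem_inter.2 ⟨?_, ?_⟩⟩
    · exact inr_mem_disjSum.2 (mem_image_of_mem _ (mem_univ _))
    · refine inr_mem_disjSum.2 ?_
      rcases φ j with _ | _ <;> simp

lemma fin3_cover : ∀ S : Finset (Fin 3), (∀ t, ¬ Disjoint (univ.erase t) S) → 2 ≤ #S := by
  decide

/-- a set of fewer than `k + 2` vertices misses an edge -/
lemma exists_edge {k : ℕ} (D : Finset (Fin 3 ⊕ (Fin k × Bool))) (hD : #D < k + 2) :
    ∃ e, Disjoint (edge e) D := by
  classical
  by_contra hc
  push Not at hc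
  have h1 : 2 ≤ #D.toLeft := by
    apply fin3_cover
    intro t ht
    apply hc (Sum.inl t)
    rw [disjoint_left]
    intro x hx hxD
    rcases x with x | x
    · exact disjoint_left.1 ht (inl_mem_disjSum.1 hx) (mem_toLeft.2 hxD)
    · exact absurd (inr_mem_disjSum.1 hx) (notMem_empty _)
  have h2 : k ≤ #D.toRight := by
    have h3 : (univ : Finset (Fin k)) ⊆ D.toRight.image Prod.fst := by
      intro j _
      have h4 := hc (Sum.inr j)
      rw [not_disjoint_iff] at h4
      obtain ⟨x, hx, hxD⟩ := h4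
      rcases x with x | x
      · exact absurd (inl_mem_disjSum.1 hx) (notMem_empty _)
      · have h5 := inr_mem_disjSum.1 hx
        refine mem_image.2 ⟨x, mem_toRight.2 hxD, ?_⟩
        rw [mem_insert, mem_singleton] at h5
        rcases h5 with rfl | rfl <;> rfl
    have h4 := (card_le_card h3).trans card_image_le
    rwa [card_univ, Fintype.card_fin] at h4
  have h3 := card_toLeft_add_card_toRight (u := D)
  omega

lemma bool_aux : ∀ u v b : Bool, ¬ u = b → ¬ v = b → u = v := by decide

/-- a set of at most one vertex is avoided by `2 ^ k` of the covers -/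
lemma many_covers {k : ℕ} (D : Finset (Fin 3 ⊕ (Fin k × Bool))) (hD : #D ≤ 1) :
    ∃ c : (Fin k → Bool) → Fin 3 × (Fin k → Bool), Function.Injective c ∧
      ∀ φ, Disjoint (cov (c φ).1 (c φ).2) D := by
  classical
  rcases D.eq_empty_or_nonempty with rfl | ⟨y, hy⟩
  · exact ⟨fun φ => (0, φ), fun φ φ' h => congrArg Prod.snd h, fun φ => disjoint_empty_right _⟩
  · have hDy : D = {y} := by
      apply (eq_of_subset_of_card_le (singleton_subset_iff.2 hy) _).symm
      rw [card_singleton]
      exact hD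
    rcases y with t | ⟨j, b⟩
    · refine ⟨fun φ => (t, φ), fun φ φ' h => congrArg Prod.snd h, fun φ => ?_⟩
      rw [hDy, disjoint_singleton_right]
      intro h
      exact absurd (inl_mem_disjSum.1 h) (notMem_erase _ _)
    · refine ⟨fun φ => (if φ j = b then 0 else 1, Function.update φ j (!b)), ?_, ?_⟩
      · intro φ φ' h
        have h1 : (if φ j = b then (0 : Fin 3) else 1) = (if φ' j = b then (0 : Fin 3) else 1) :=
          congrArg Prod.fst h
        have h2 : Function.update φ j (!b) = Function.update φ' j (!b) := congrArg Prod.snd h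
        have h3 : φ j = φ' j := by
          split_ifs at h1 with h4 h5 h5
          · rw [h4, h5]
          · exact absurd h1 (by decide)
          · exact absurd h1 (by decide)
          · exact bool_aux _ _ _ h4 h5
        funext i
        by_cases hi : i = j
        · rw [hi, h3]
        · have h4 := congrFun h2 i
          rwa [Function.update_of_ne hi, Function.update_of_ne hi] at h4
      · intro φ
        rw [hDy, disjoint_singleton_right]
        intro h
        obtain ⟨i, -, hi⟩ := mem_image.1 (inr_mem_disjSum.1 h)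
        rw [Prod.mk.injEq] at hi
        obtain ⟨rfl, hi⟩ := hi
        simp at hi

lemma good_step (k M : ℕ) (hk : 1 ≤ k) (h : Good k M) : Good (k + 2) (min M (2 ^ k)) := by
  classical
  obtain ⟨V, _, _, F, ⟨hF1, hF2⟩, hF3⟩ := h
  let T1 : Finset (Finset (V ⊕ (Fin 3 ⊕ (Fin k × Bool)))) :=
    (univ : Finset (Fin 3 × (Fin k → Bool))).image
      (fun p => (∅ : Finset V).disjSum (cov p.1 p.2))
  let T2 : Finset (Finset (V ⊕ (Fin 3 ⊕ (Fin k × Bool)))) :=
    (F ×ˢ (univ : Finset (Fin 3 ⊕ Fin k))).image (fun p => p.1.disjSum (edge p.2))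
  have hT1 : ∀ A, A ∈ T1 ↔ ∃ t φ, A = (∅ : Finset V).disjSum (cov t φ) := by
    intro A
    constructor
    · intro hA
      obtain ⟨p, -, hp⟩ := mem_image.1 hA
      exact ⟨p.1, p.2, hp.symm⟩
    · rintro ⟨t, φ, hA⟩
      exact mem_image.2 ⟨(t, φ), mem_univ _, hA.symm⟩
  have hT2 : ∀ A, A ∈ T2 ↔ ∃ h ∈ F, ∃ e, A = h.disjSum (edge e) := by
    intro A
    constructor
    · intro hA
      obtain ⟨p, hp1, hp⟩ := mem_image.1 hA
      exact ⟨p.1, (mem_product.1 hp1).1, p.2, hp.symm⟩
    · rintro ⟨h, hh, e, hA⟩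
      exact mem_image.2 ⟨(h, e), mem_product.2 ⟨hh, mem_univ _⟩, hA.symm⟩
  refine ⟨V ⊕ (Fin 3 ⊕ (Fin k × Bool)), inferInstance, inferInstance, T1 ∪ T2, ⟨?_, ?_⟩, ?_⟩
  · intro A hA
    rcases mem_union.1 hA with h | h
    · obtain ⟨t, φ, rfl⟩ := (hT1 A).1 h
      rw [card_disjSum, cov_card, card_empty]
      omega
    · obtain ⟨g, hg, e, rfl⟩ := (hT2 A).1 h
      rw [card_disjSum, edge_card, hF1 g hg]
  · intro A hA B hB
    rcases mem_union.1 hA with h | h <;> rcases mem_union.1 hB with h' | h'
    · obtain ⟨t, φ, rfl⟩ := (hT1 A).1 h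
      obtain ⟨t', φ', rfl⟩ := (hT1 B).1 h'
      obtain ⟨x, hx⟩ := cov_cov t t' φ φ'
      rw [mem_inter] at hx
      exact ⟨Sum.inr x, mem_inter.2 ⟨inr_mem_disjSum.2 hx.1, inr_mem_disjSum.2 hx.2⟩⟩
    · obtain ⟨t, φ, rfl⟩ := (hT1 A).1 h
      obtain ⟨h, hh, e, rfl⟩ := (hT2 B).1 h'
      obtain ⟨x, hx⟩ := cov_edge t φ e
      rw [mem_inter] at hx
      exact ⟨Sum.inr x, mem_inter.2 ⟨inr_mem_disjSum.2 hx.1, inr_mem_disjSum.2 hx.2⟩⟩
    · obtain ⟨h, hh, e, rfl⟩ := (hT2 A).1 h
      obtain ⟨t, φ, rfl⟩ := (hT1 B).1 h'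
      obtain ⟨x, hx⟩ := cov_edge t φ e
      rw [mem_inter] at hx
      exact ⟨Sum.inr x, mem_inter.2 ⟨inr_mem_disjSum.2 hx.2, inr_mem_disjSum.2 hx.1⟩⟩
    · obtain ⟨h1, hh1, e1, rfl⟩ := (hT2 A).1 h
      obtain ⟨h2, hh2, e2, rfl⟩ := (hT2 B).1 h'
      obtain ⟨x, hx⟩ := hF2 h1 hh1 h2 hh2
      rw [mem_inter] at hx
      exact ⟨Sum.inl x, mem_inter.2 ⟨inl_mem_disjSum.2 hx.1, inl_mem_disjSum.2 hx.2⟩⟩
  · intro B hB
    have hBc := card_toLeft_add_card_toRight (u := B)
    have hdisj : ∀ (h : Finset V) (e : Finset (Fin 3 ⊕ (Fin k × Bool))),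
        Disjoint h B.toLeft → Disjoint e B.toRight → Disjoint (h.disjSum e) B := by
      intro h e h1 h2
      rw [disjoint_left]
      intro x hx hxB
      rcases x with x | x
      · exact disjoint_left.1 h1 (inl_mem_disjSum.1 hx) (mem_toLeft.2 hxB)
      · exact disjoint_left.1 h2 (inr_mem_disjSum.1 hx) (mem_toRight.2 hxB)
    by_cases hc : #B.toLeft < k
    · obtain ⟨e, he⟩ := exists_edge B.toRight (by omega)
      have h1 := hF3 B.toLeft hc
      have h2 : (avoid F B.toLeft).image (fun h => h.disjSum (edge e)) ⊆ avoid (T1 ∪ T2) B := by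
        intro A hA
        obtain ⟨h, hh, rfl⟩ := mem_image.1 hA
        have hh' := mem_filter.1 hh
        refine mem_filter.2 ⟨mem_union_right _ ((hT2 _).2 ⟨h, hh'.1, e, rfl⟩), ?_⟩
        exact hdisj _ _ hh'.2 he
      have h3 : #((avoid F B.toLeft).image (fun h => h.disjSum (edge e))) =
          #(avoid F B.toLeft) := by
        apply card_image_of_injective
        intro h h' hh
        have := congrArg Finset.toLeft hh
        simpa using this
      have h4 := card_le_card h2
      rw [h3] at h4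
      exact (min_le_left _ _).trans (h1.trans h4)
    · obtain ⟨c, hc1, hc2⟩ := many_covers B.toRight (by omega)
      have h2 : (univ : Finset (Fin k → Bool)).image
          (fun φ => (∅ : Finset V).disjSum (cov (c φ).1 (c φ).2)) ⊆ avoid (T1 ∪ T2) B := by
        intro A hA
        obtain ⟨φ, -, rfl⟩ := mem_image.1 hA
        refine mem_filter.2 ⟨mem_union_left _ ((hT1 _).2 ⟨_, _, rfl⟩), ?_⟩
        exact hdisj _ _ (disjoint_empty_left _) (hc2 φ)
      have h3 : #((univ : Finset (Fin k → Bool)).image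
          (fun φ => (∅ : Finset V).disjSum (cov (c φ).1 (c φ).2))) = 2 ^ k := by
        rw [card_image_of_injective, card_univ, Fintype.card_fun, Fintype.card_bool,
          Fintype.card_fin]
        intro φ φ' hφ
        have h4 := congrArg Finset.toRight hφ
        have h5 : cov (c φ).1 (c φ).2 = cov (c φ').1 (c φ').2 :=
          toRight_disjSum.symm.trans (h4.trans toRight_disjSum)
        obtain ⟨h6, h7⟩ := cov_inj _ _ _ _ h5
        exact hc1 (Prod.ext h6 h7)
      have h4 := card_le_card h2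
      rw [h3] at h4
      exact (min_le_right _ _).trans h4

/-! ### The result -/

lemma good_mono {k M M' : ℕ} (h : Good k M) (hM : M' ≤ M) : Good k M' := by
  obtain ⟨V, i1, i2, F, h1, h2⟩ := h
  exact ⟨V, i1, i2, F, h1, fun B hB => hM.trans (h2 B hB)⟩

lemma exists_good (k : ℕ) (hk : 3 ≤ k) : ∃ M : ℕ, Good k M ∧ (11 / 10 : ℝ) ^ k < M := by
  have key : ∀ a : ℕ, 1 ≤ a → (11 / 10 : ℝ) ^ (3 * a + 4) < ((2 ^ a : ℕ) : ℝ) := by
    intro a ha
    induction a, ha using Nat.le_induction with
    | base => norm_num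
    | succ a _ ih =>
      have e : 3 * (a + 1) + 4 = (3 * a + 4) + 3 := by ring
      rw [e, pow_add, pow_succ 2 a]
      push_cast at ih ⊢
      have h1 : (0 : ℝ) < 2 ^ a := by positivity
      nlinarith
  have mono : ∀ i j : ℕ, i ≤ j → (11 / 10 : ℝ) ^ i ≤ (11 / 10 : ℝ) ^ j := fun i j h =>
    pow_le_pow_right₀ (by norm_num) h
  have hcase : k = 4 ∨ ∃ a, 1 ≤ a ∧ (k = 3 * a ∨ k = 3 * a + 2 ∨ k = 3 * a + 4) := by
    by_cases h4 : k = 4
    · exact Or.inl h4
    · right
      rcases (by omega : k % 3 = 0 ∨ k % 3 = 1 ∨ k % 3 = 2) with h | h | h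
      · exact ⟨k / 3, by omega, Or.inl (by omega)⟩
      · exact ⟨k / 3 - 1, by omega, Or.inr (Or.inr (by omega))⟩
      · exact ⟨k / 3, by omega, Or.inr (Or.inl (by omega))⟩
  rcases hcase with rfl | ⟨a, ha, h⟩
  · exact ⟨2, good_four, by norm_num⟩
  · have g0 := good_fano a ha
    have g1 : Good (3 * a + 2) (2 ^ a) :=
      good_mono (good_step _ _ (by omega) g0)
        (le_min le_rfl (Nat.pow_le_pow_right (by norm_num) (by omega)))
    have g2 : Good (3 * a + 2 + 2) (2 ^ a) :=
      good_mono (good_step _ _ (by omega) g1)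
        (le_min le_rfl (Nat.pow_le_pow_right (by norm_num) (by omega)))
    rcases h with rfl | rfl | rfl
    · exact ⟨2 ^ a, g0, (mono _ _ (by omega)).trans_lt (key a ha)⟩
    · exact ⟨2 ^ a, g1, (mono _ _ (by omega)).trans_lt (key a ha)⟩
    · exact ⟨2 ^ a, g2, key a ha⟩

/-- **There is an absolute constant `c > 1` such that `m(k, k-1) > c ^ k` for every `k ≥ 3`.** -/
theorem result : ∃ c : ℝ, 1 < c ∧ ∀ k : ℕ, 3 ≤ k →
    ∃ (n : ℕ) (F : Finset (Finset (Fin n))), IsIntersecting k F ∧ CoveringNumberEq F k ∧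
      ∀ B : Finset (Fin n), #B = k - 1 → c ^ k < (#(avoid F B) : ℝ) := by
  classical
  refine ⟨11 / 10, by norm_num, fun k hk => ?_⟩
  obtain ⟨M, ⟨V, _, _, F, ⟨hF1, hF2⟩, hF3⟩, hM⟩ := exists_good k hk
  have hMpos : 0 < M := by
    have h1 : (0 : ℝ) < M := lt_trans (by positivity) hM
    exact_mod_cast h1
  let e : V ≃ Fin (Fintype.card V) := Fintype.equivFin V
  let G : Finset (Finset (Fin (Fintype.card V))) := F.image (fun A => A.map e.toEmbedding)
  have hG1 : IsIntersecting k G := by
    constructor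
    · intro A hA
      obtain ⟨A', hA', rfl⟩ := mem_image.1 hA
      rw [card_map, hF1 A' hA']
    · intro A hA B hB
      obtain ⟨A', hA', rfl⟩ := mem_image.1 hA
      obtain ⟨B', hB', rfl⟩ := mem_image.1 hB
      obtain ⟨x, hx⟩ := hF2 A' hA' B' hB'
      rw [mem_inter] at hx
      exact ⟨e x, mem_inter.2 ⟨mem_map_of_mem _ hx.1, mem_map_of_mem _ hx.2⟩⟩
  have hG2 : ∀ B : Finset (Fin (Fintype.card V)), #B < k → M ≤ #(avoid G B) := by
    intro B hB
    have h1 := hF3 (B.map e.symm.toEmbedding) (by rwa [card_map])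
    refine h1.trans ?_
    have h2 : (avoid F (B.map e.symm.toEmbedding)).image (fun A => A.map e.toEmbedding) ⊆
        avoid G B := by
      intro A hA
      obtain ⟨A', hA', rfl⟩ := mem_image.1 hA
      have hA'' := mem_filter.1 hA'
      refine mem_filter.2 ⟨mem_image_of_mem _ hA''.1, ?_⟩
      rw [disjoint_left]
      intro x hx hxB
      obtain ⟨y, hy, rfl⟩ := mem_map.1 hx
      apply disjoint_left.1 hA''.2 hy
      refine mem_map.2 ⟨_, hxB, ?_⟩
      simp
    have h3 := card_le_card h2
    rwa [card_image_of_injective _ (map_injective e.toEmbedding)] at h3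
  refine ⟨Fintype.card V, G, hG1, ⟨?_, ?_⟩, ?_⟩
  · have h1 := hG2 ∅ (by rw [card_empty]; omega)
    obtain ⟨A, hA⟩ := card_pos.1 (hMpos.trans_le h1)
    have hA' := (mem_filter.1 hA).1
    exact ⟨A, fun B hB => hG1.2 A hA' B hB, hG1.1 A hA'⟩
  · intro T hT
    by_contra hc
    have h1 := hG2 T (by omega)
    obtain ⟨A, hA⟩ := card_pos.1 (hMpos.trans_le h1)
    have hA' := mem_filter.1 hA
    obtain ⟨x, hx⟩ := hT A hA'.1
    rw [mem_inter] at hx
    exact disjoint_left.1 hA'.2 hx.2 hx.1
  · intro B hB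
    have h1 := hG2 B (by omega)
    have h2 : (M : ℝ) ≤ (#(avoid G B) : ℝ) := by exact_mod_cast h1
    exact hM.trans_le h2

end Pool.Agent.Results.MP_2b3591_co.ExponentialGrowth
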